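import Pool.Agent.W937.FG.Stm

set_option autoImplicit false

namespace Pool.Agent.W214.FG

open Pool.Agent.W937.FG Function

theorem copy_iff (h0 : PropC0) {s0 k : ℕ} (hk : k < s0) (s : ℕ → ℕ)
    (hs : ∀ j, s0 ≤ j → s j = 0) (x x' : ℕ) (s' : ℕ → ℕ) :
    MExec (copyP k s0 (s0 + 1)) (x, s) (x', s') ↔ s' = update s s0 (s k) ∧ x = x' + s k := by
  have h := h0.2.2 k s0 (s0 + 1) x x' s s' (by omega) (by omega) (by omega) (hs _ (by omega))
  rw [hs s0 le_rfl, Nat.zero_add] at h
  exact h

theorem main (h0 : PropC0) : PropC1 := by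
  refine ⟨?_, ?_, ?_⟩
  · refine ⟨Nat.Primrec'.zero, fun _ => 0, Nat.Primrec'.zero, ?_⟩
    intro ι s0 hι
    refine ⟨.op .nop, ?_⟩
    intro x s hs
    have he : update s s0 0 = s := by
      rw [← hs s0 le_rfl, update_eq_self]
    refine ⟨?_, ?_⟩
    · intro x' s' h
      cases h
      exact ⟨he.symm, rfl⟩
    · intro _
      refine ⟨x, ?_⟩
      show MExec (.op .nop) (x, s) (x, update s s0 0)
      rw [he]
      exact MExec.nop _
  · refine ⟨Nat.Primrec'.succ, fun v => Nat.succ v.head, Nat.Primrec'.succ, ?_⟩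
    intro ι s0 hι
    refine ⟨.seq (copyP (ι 0) s0 (s0 + 1)) (.op (.inc s0)), ?_⟩
    intro x s hs
    have hh : (List.Vector.ofFn fun i => s (ι i)).head = s (ι 0) := by
      rw [← List.Vector.get_zero, List.Vector.get_ofFn]
    simp only [hh]
    refine ⟨?_, ?_⟩
    · intro x' s' h
      cases h with
      | seq h1 h2 =>
        rename_i d
        obtain ⟨y, t⟩ := d
        rw [copy_iff h0 (hι 0) s hs] at h1
        obtain ⟨e1, e2⟩ := h1
        cases h2
        subst e1
        refine ⟨?_, ?_⟩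
        · rw [update_idem, update_self]
        · omega
    · intro hx
      refine ⟨x - (s (ι 0) + 1), ?_⟩
      have h1 : MExec (copyP (ι 0) s0 (s0 + 1)) (x, s)
          ((x - (s (ι 0) + 1)) + 1, update s s0 (s (ι 0))) := by
        rw [copy_iff h0 (hι 0) s hs]
        exact ⟨rfl, by omega⟩
      refine MExec.seq h1 ?_
      have h2 := MExec.inc s0 (x - (s (ι 0) + 1)) (update s s0 (s (ι 0)))
      rw [update_idem, update_self] at h2
      exact h2
  · intro n i
    refine ⟨Nat.Primrec'.get i, fun v => v.get i, Nat.Primrec'.get i, ?_⟩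
    intro ι s0 hι
    refine ⟨copyP (ι i) s0 (s0 + 1), ?_⟩
    intro x s hs
    simp only [List.Vector.get_ofFn]
    refine ⟨?_, ?_⟩
    · intro x' s' h
      rw [copy_iff h0 (hι i) s hs] at h
      exact h
    · intro hx
      refine ⟨x - s (ι i), ?_⟩
      rw [copy_iff h0 (hι i) s hs]
      exact ⟨rfl, by omega⟩

end Pool.Agent.W214.FG
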